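import Pool.Agent.TH80.OMS.Main
import Pool.Agent.TH80.OMS.CycDefs
import Pool.Agent.TH382.HS.Fam
import Pool.Agent.TH382.QC.Torus

/-!
# Omega-stable diffeomorphisms and commuting flows
-/

set_option autoImplicit false
set_option linter.unusedSectionVars false

open scoped Manifold ContDiff Topology NNReal
open Filter Set Metric

universe u

namespace Run7.h491.HP

open Pool.Agent.H718R2.G Pool.Agent.W564.SC Pool.Agent.TH382.QC Pool.Agent.TH80.CLX Pool.Agent.TH382.HS Pool.Agent.TH80.OMS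

/-- `Ψ` is a `C^r` flow on `N` -/
structure IsCrFlow (n : ℕ) (N : Type u) [TopologicalSpace N] [ChartedSpace (V n) N] (r : ℕ∞)
    (Ψ : ℝ → N → N) : Prop where
  smooth : ContMDiff (𝓘(ℝ, ℝ).prod (𝓡 n)) (𝓡 n) r (fun q : ℝ × N => Ψ q.1 q.2)
  zero : ∀ y, Ψ 0 y = y
  add : ∀ s t y, Ψ (s + t) y = Ψ s (Ψ t y)

section

variable {n : ℕ} {N : Type u} [TopologicalSpace N] [ChartedSpace (V n) N] {r : ℕ∞}
  {Ψ : ℝ → N → N}

/-- the maps of a flow as diffeomorphisms -/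
noncomputable def tm (hΨ : IsCrFlow n N r Ψ) (s : ℝ) : DiffM n N r where
  toFun := Ψ s
  invFun := Ψ (-s)
  left_inv y := by rw [← hΨ.add, neg_add_cancel, hΨ.zero]
  right_inv y := by rw [← hΨ.add, add_neg_cancel, hΨ.zero]
  contMDiff_toFun := by
    have h1 : ContMDiff (𝓡 n) (𝓘(ℝ, ℝ).prod (𝓡 n)) r (fun y : N => (s, y)) :=
      contMDiff_const.prodMk contMDiff_id
    exact hΨ.smooth.comp h1
  contMDiff_invFun := by
    have h1 : ContMDiff (𝓡 n) (𝓘(ℝ, ℝ).prod (𝓡 n)) r (fun y : N => (-s, y)) :=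
      contMDiff_const.prodMk contMDiff_id
    exact hΨ.smooth.comp h1

theorem tm_fam (hΨ : IsCrFlow n N r Ψ) (F : DiffM n N r) :
    IsFam n N r (fun s : ℝ => F.trans (tm hΨ s)) := by
  intro y
  have h1 : ContMDiffAt (𝓘(ℝ, ℝ).prod (𝓡 n)) (𝓡 n) r (fun z : ℝ × N => F z.2)
      ((0 : ℝ), y) := (F.contMDiff.contMDiffAt).comp _ contMDiffAt_snd
  have h2 : ContMDiffAt (𝓘(ℝ, ℝ).prod (𝓡 n)) 𝓘(ℝ, ℝ) r (fun z : ℝ × N => z.1)
      ((0 : ℝ), y) := contMDiffAt_fst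
  exact ContMDiffAt.comp (g := fun q : ℝ × N => Ψ q.1 q.2)
      (f := fun z : ℝ × N => (z.1, F z.2)) _ (hΨ.smooth.contMDiffAt) (h2.prodMk h1)

theorem flow_cont (hΨ : IsCrFlow n N r Ψ) (y : N) : Continuous fun t => Ψ t y :=
  hΨ.smooth.continuous.comp (continuous_id.prodMk continuous_const)

variable [T2Space N] [CompactSpace N] [IsManifold (𝓡 n) ∞ N]

/-- small times stay in an open set -/
theorem near (hΨ : IsCrFlow n N r Ψ) {U₁ : Set (DiffM n N r)} (hU₁ : IsOpen[strongTop n N r] U₁)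
    (F : DiffM n N r) (hF : F ∈ U₁) : ∃ δ : ℝ, 0 < δ ∧ ∀ s, |s| < δ → F.trans (tm hΨ s) ∈ U₁ := by
  by_contra hcon
  push Not at hcon
  choose s hs hsU using fun i : ℕ => hcon (1 / ((i : ℝ) + 1)) (by positivity)
  have hs0 : Tendsto s atTop (𝓝 0) :=
    squeeze_zero_norm (fun i => (hs i).le) tendsto_one_div_add_atTop_nhds_zero_nat
  have e : F.trans (tm hΨ 0) = F := by
    ext y
    show Ψ 0 (F y) = F y
    rw [hΨ.zero]
  have hcv : Cv (fun i => F.trans (tm hΨ (s i))) F := by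
    have h1 := Cv.fam Pool.Agent.W917.SC.comp (tm_fam hΨ F) hs0
    rwa [e] at h1
  obtain ⟨i, hi⟩ := (hcv.mem hU₁ hF).exists
  exact hsU i hi

/-- **Drift**: if all maps in the open set `U₁ ∋ F` have finitely many points of each period, and `F`
commutes with the flow `Ψ`, then the points `y` with `F^m(y) = Ψ_τ(y)`, `|τ| < δ m`, are fixed by the
flow. -/
theorem drift {U₁ : Set (DiffM n N r)} (hU₁ : IsOpen[strongTop n N r] U₁)
    (hfin : ∀ G ∈ U₁, ∀ m : ℕ, 1 ≤ m → {x | G^[m] x = x}.Finite) (F : DiffM n N r) (hF : F ∈ U₁)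
    (hΨ : IsCrFlow n N r Ψ) (hc : ∀ t y, F (Ψ t y) = Ψ t (F y)) :
    ∃ δ : ℝ, 0 < δ ∧ ∀ m : ℕ, 1 ≤ m → ∀ τ : ℝ, |τ| < δ * m → ∀ y, F^[m] y = Ψ τ y →
      ∀ t, Ψ t y = y := by
  obtain ⟨δ, hδ, h⟩ := near hΨ hU₁ F hF
  refine ⟨δ, hδ, fun m hm τ hτ y hy t => ?_⟩
  have hm0 : (0 : ℝ) < m := by exact_mod_cast hm
  obtain ⟨s, hs⟩ : ∃ s : ℝ, s = -τ / m := ⟨_, rfl⟩
  have hsδ : |s| < δ := by
    rw [hs, abs_div, abs_neg, abs_of_pos hm0, div_lt_iff₀ hm0]
    exact hτ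
  have hG := h s hsδ
  have hit : ∀ (i : ℕ) (t : ℝ) (w : N), F^[i] (Ψ t w) = Ψ t (F^[i] w) := by
    intro i t w
    induction i with
    | zero => rfl
    | succ i ih => rw [Function.iterate_succ_apply', ih, hc, Function.iterate_succ_apply']
  have hit2 : ∀ (i : ℕ) (w : N), (F.trans (tm hΨ s))^[i] w = Ψ (i * s) (F^[i] w) := by
    intro i w
    induction i with
    | zero => simp [hΨ.zero]
    | succ i ih =>
      rw [Function.iterate_succ_apply', ih]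
      show Ψ s (F (Ψ (i * s) (F^[i] w))) = _
      rw [hc, ← hΨ.add, Function.iterate_succ_apply']
      congr 1
      push_cast
      ring
  have hmem : ∀ t, Ψ t y ∈ {x | (F.trans (tm hΨ s))^[m] x = x} := by
    intro t
    show (F.trans (tm hΨ s))^[m] (Ψ t y) = Ψ t y
    rw [hit2, hit, hy, ← hΨ.add, ← hΨ.add]
    congr 1
    rw [hs]
    field_simp
    ring
  obtain ⟨x₀, -, hx₀⟩ := isPreconnected_univ.eqOn_const_of_mapsTo
    (T := {x | (F.trans (tm hΨ s))^[m] x = x}) (S := (univ : Set ℝ)) (f := fun t => Ψ t y)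
    (hfin _ hG _ hm).isDiscrete (flow_cont hΨ y).continuousOn (fun τ _ => hmem τ) ⟨_, hmem 0⟩
  have h1 : Ψ t y = x₀ := hx₀ (mem_univ t)
  have h2 : Ψ 0 y = x₀ := hx₀ (mem_univ 0)
  rw [h1, ← h2, hΨ.zero]

/-- The flow has no closed orbits. -/
theorem no_closed {U₁ : Set (DiffM n N r)} (hU₁ : IsOpen[strongTop n N r] U₁)
    (hfin : ∀ G ∈ U₁, ∀ m : ℕ, 1 ≤ m → {x | G^[m] x = x}.Finite) (F : DiffM n N r) (hF : F ∈ U₁)
    (hΨ : IsCrFlow n N r Ψ) (hF1 : ∀ y, F y = Ψ 1 y) {T : ℝ} (hT : 0 < T) {y : N}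
    (hy : Ψ T y = y) (t : ℝ) : Ψ t y = y := by
  have hc : ∀ t y, F (Ψ t y) = Ψ t (F y) := by
    intro t y
    rw [hF1, hF1, ← hΨ.add, ← hΨ.add, add_comm]
  obtain ⟨δ, hδ, h⟩ := drift hU₁ hfin F hF hΨ hc
  obtain ⟨m, hm⟩ := exists_nat_gt (T / δ)
  have hm0 : (0 : ℝ) < m := lt_of_le_of_lt (by positivity) hm
  have hm1 : 1 ≤ m := by exact_mod_cast hm0
  have hmδ : T < δ * m := by
    rw [div_lt_iff₀ hδ] at hm
    linarith
  have hper : ∀ p : ℕ, Ψ (p * T) y = y := by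
    intro p
    induction p with
    | zero => rw [Nat.cast_zero, zero_mul, hΨ.zero]
    | succ p ih =>
      have e : ((p + 1 : ℕ) : ℝ) * T = T + p * T := by push_cast; ring
      rw [e, hΨ.add, ih, hy]
  have hiter : ∀ i : ℕ, F^[i] y = Ψ i y := by
    intro i
    induction i with
    | zero => rw [Nat.cast_zero, hΨ.zero]; rfl
    | succ i ih =>
      rw [Function.iterate_succ_apply', ih, hF1, ← hΨ.add]
      congr 1
      push_cast
      ring
  obtain ⟨p, hp⟩ : ∃ p : ℕ, p = ⌊(m : ℝ) / T⌋₊ := ⟨_, rfl⟩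
  have hp1 : (p : ℝ) ≤ m / T := by
    rw [hp]
    exact Nat.floor_le (by positivity)
  have hp2 : (m : ℝ) / T < p + 1 := by
    rw [hp]
    exact Nat.lt_floor_add_one _
  rw [le_div_iff₀ hT] at hp1
  rw [div_lt_iff₀ hT] at hp2
  refine h m hm1 (m - p * T) ?_ y ?_ t
  · rw [abs_of_nonneg (by linarith)]
    linarith
  · rw [hiter]
    have e : (m : ℝ) = (m - p * T) + p * T := by ring
    conv_lhs => rw [e]
    rw [hΨ.add, hper]

end

end Run7.h491.HP
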