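import Pool.Agent.Run7.h619.HG.Cor

/-!
# Omega-stable diffeomorphisms and homogeneous dynamics: definitions
-/

set_option autoImplicit false

open scoped Manifold ContDiff Topology NNReal
open Set

universe u

namespace Run7.h491.HP

open Pool.Agent.H718R2.G Run7.h619.HG

section group

variable {A : Type*} [NormedRing A] [NormedAlgebra ℝ A] [CompleteSpace A]

/-- the orbit of `y` is a compact homogeneous manifold `G / Γ` which satisfies the condition of
`IsLatticePt` and is not a single point -/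
def IsBigPt (G : Subgroup Aˣ) (g : Submodule ℝ A) {N : Type u} (act : G → N → N) (y : N) : Prop :=
  IsLatticePt G g act y ∧ ∃ u, act u y ≠ y

/-- `F` is an extension by a cocycle with values in `G` of a map which can be closed at `z` by maps which
commute with the action, and the orbit of `z` is as in `IsBigPt`. -/
def IsHomExtG (G : Subgroup Aˣ) (g : Submodule ℝ A) (n : ℕ) (N : Type u) [TopologicalSpace N]
    [ChartedSpace (V n) N] (r : ℕ∞) (F : DiffM n N r) (z : N) : Prop :=
  ∃ (ρ : G → N → N) (a : N → G) (F₀ : DiffM n N r), IsGAction G n N univ ρ ∧ IsBigPt G g ρ z ∧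
    IsSkew ρ a F₀ F ∧ EqClosable n N r ρ F₀ z

variable {G : Subgroup Aˣ} {g : Submodule ℝ A}

/-- the one-parameter group `exp(s W)` -/
noncomputable def onePar (hG : IsLie G g) (W : A) (hW : W ∈ g) (s : ℝ) : G :=
  ⟨eu (s • W), hG.exp_mem _ (g.smul_mem s hW)⟩

/-- `q ↦ exp(τ(q) W) q` is the time-one map of a smooth time change of the flow `q ↦ exp(t W) q`: the
flow whose velocity is `β⁻¹` times that of `exp(t W)`; the positive function `β` is invariant under
`f`. -/
def IsTimeCh (hG : IsLie G g) (W : A) (hW : W ∈ g) (n : ℕ) (N : Type u) [TopologicalSpace N]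
    [ChartedSpace (V n) N] (ρ : G → N → N) (f : N → N) (τ : N → ℝ) : Prop :=
  ∃ β : N → ℝ, ContMDiff (𝓡 n) 𝓘(ℝ, ℝ) ∞ β ∧ (∀ q, 0 < β q) ∧ (∀ q, β (f q) = β q) ∧
    ∀ q, ∫ s in (0 : ℝ)..τ q, β (ρ (onePar hG W hW s) q) = 1

/-- `F` is the composition of `F₀` with the time-one map of a smooth time change, invariant under `F₀`, of
the flow of a one-parameter group of `G`. -/
def IsTCMap (hG : IsLie G g) (n : ℕ) (N : Type u) [TopologicalSpace N] [ChartedSpace (V n) N]
    (ρ : G → N → N) (F₀ F : N → N) : Prop :=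
  ∃ (W : A) (hW : W ∈ g) (τ : N → ℝ), IsTimeCh hG W hW n N ρ F₀ τ ∧
    ∀ y, F y = ρ (onePar hG W hW (τ (F₀ y))) (F₀ y)

/-- `F` is the composition of a map `F₀` as in `IsTCMap` which commutes with the action and for which `z`
is periodic, with the time-one map of a smooth time change of the flow of a one-parameter group of `G`,
and the orbit of `z` is as in `IsBigPt`. -/
def IsTCPieceG (hG : IsLie G g) (n : ℕ) (N : Type u) [TopologicalSpace N] [ChartedSpace (V n) N]
    (r : ℕ∞) (F : DiffM n N r) (z : N) : Prop :=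
  ∃ (ρ : G → N → N) (F₀ : DiffM n N r), IsGAction G n N univ ρ ∧ IsBigPt G g ρ z ∧ Comm ρ F₀ ∧
    IsPer F₀ z ∧ IsTCMap hG n N ρ F₀ F

end group

/-- `y` lies on a periodic homogeneous submanifold `G / Γ` of `F` which is not a point; `G ⊆ GL(d, ℝ)` is
a connected Lie group whose Lie algebra has an abelian Cartan subalgebra. -/
def IsHomPiece (n : ℕ) (N : Type u) [TopologicalSpace N] [ChartedSpace (V n) N] (F : N → N)
    (y : N) : Prop :=
  ∃ (d : ℕ) (G : Subgroup (Md d)ˣ) (g : Submodule ℝ (Md d)), IsLie G g ∧ HasCartan g ∧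
    IsPerOrbit G n N (IsBigPt G g) F y

/-- `IsHomExtG` for some connected Lie group `G ⊆ GL(d, ℝ)` whose Lie algebra has an abelian Cartan
subalgebra. -/
def IsHomExt (n : ℕ) (N : Type u) [TopologicalSpace N] [ChartedSpace (V n) N] (r : ℕ∞)
    (F : DiffM n N r) (z : N) : Prop :=
  ∃ (d : ℕ) (G : Subgroup (Md d)ˣ) (g : Submodule ℝ (Md d)), IsLie G g ∧ HasCartan g ∧
    IsHomExtG G g n N r F z

/-- `IsTCPieceG` for some connected Lie group `G ⊆ GL(d, ℝ)` whose Lie algebra has an abelian Cartan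
subalgebra. -/
def IsTCPiece (n : ℕ) (N : Type u) [TopologicalSpace N] [ChartedSpace (V n) N] (r : ℕ∞)
    (F : DiffM n N r) (z : N) : Prop :=
  ∃ (d : ℕ) (G : Subgroup (Md d)ˣ) (g : Submodule ℝ (Md d)) (hG : IsLie G g), HasCartan g ∧
    IsTCPieceG hG n N r F z

end Run7.h491.HP
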