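import Pool.Agent.Run7.h491.HP.Flow
import Pool.Agent.Y504.CO.Gen

/-!
# Omega-stable diffeomorphisms which are limits of time-one maps of flows
-/

set_option autoImplicit false
set_option linter.unusedSectionVars false

open scoped Manifold ContDiff Topology NNReal
open Filter Set Metric

universe u

namespace Run7.h491.HP

open Pool.Agent.H718R2.G Pool.Agent.TH80.OMS Pool.Agent.Y504.CO

section

variable {N : Type u} [TopologicalSpace N]

theorem OmegaConj.iso {F G : N → N} (hF : Continuous F) (h : OmegaConj F G)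
    {H : N → N} (h' : OmegaConj F H) : OmegaConj G H := by
  obtain ⟨a, ha⟩ := h
  obtain ⟨b, hb⟩ := h'
  refine ⟨a.symm.trans b, fun x y hxy => ?_⟩
  have h1 := conj_symm hF a ha x y hxy
  exact hb _ _ h1

/-- `Ψ` has only trivial recurrence: every recurrent point is fixed or lies on a closed orbit -/
def TrivRec (Ψ : ℝ → N → N) : Prop :=
  ∀ y, (∀ W ∈ 𝓝 y, ∃ t : ℝ, 1 ≤ t ∧ Ψ t y ∈ W) → ∃ T : ℝ, 0 < T ∧ Ψ T y = y

end

variable {n : ℕ} {N : Type u} [TopologicalSpace N] [T2Space N] [CompactSpace N]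
  [ChartedSpace (V n) N] [IsManifold (𝓡 n) ∞ N] {r : ℕ∞}

theorem iter_flow {Ψ : ℝ → N → N} (hΨ : IsCrFlow n N r Ψ) {G : N → N} (hG : ∀ y, G y = Ψ 1 y)
    (k : ℕ) (y : N) : G^[k] y = Ψ k y := by
  induction k with
  | zero => rw [Nat.cast_zero, hΨ.zero]; rfl
  | succ k ih =>
    rw [Function.iterate_succ_apply', ih, hG, ← hΨ.add]
    congr 1
    push_cast
    ring

theorem flow_limits (hr : 1 ≤ r) (F : DiffM n N r) (hF : OmegaStable n N r F) :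
    ∃ U : Set (DiffM n N r), IsOpen[strongTop n N r] U ∧ F ∈ U ∧ ∀ G ∈ U, ∀ Ψ : ℝ → N → N,
      IsCrFlow n N r Ψ →
      ((∀ t y, G (Ψ t y) = Ψ t (G y)) → ∃ δ : ℝ, 0 < δ ∧ ∀ m : ℕ, 1 ≤ m → ∀ τ : ℝ, |τ| < δ * m →
        ∀ y, G^[m] y = Ψ τ y → ∀ t, Ψ t y = y) ∧
      ((∀ y, G y = Ψ 1 y) →
        {y | ∀ t, Ψ t y = y}.Finite ∧ (∀ (y : N) (T : ℝ), 0 < T → Ψ T y = y → ∀ t, Ψ t y = y) ∧
        (∀ p ∈ Per F, F p = p) ∧
        (TrivRec Ψ → FiniteNoCycle F ∧ ∀ p ∈ Omega F, IsHyperbolicPer n F p ∧ F p = p)) := by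
  obtain ⟨U₁, hU₁, hFU₁, hfin⟩ := finite_per hr hF
  have hF' := hF
  obtain ⟨U₂, hU₂, hFU₂, hconj⟩ := hF'
  refine ⟨U₁ ∩ U₂, @IsOpen.inter _ (strongTop n N r) _ _ hU₁ hU₂, ⟨hFU₁, hFU₂⟩, fun G hG Ψ hΨ => ⟨fun hc => ?_, fun hG1 => ?_⟩⟩
  · exact drift hU₁ hfin G hG.1 hΨ hc
  have hclosed : ∀ (y : N) (T : ℝ), 0 < T → Ψ T y = y → ∀ t, Ψ t y = y :=
    fun y T hT hy t => no_closed hU₁ hfin G hG.1 hΨ hG1 hT hy t
  have hFix : {y | ∀ t, Ψ t y = y} ⊆ {x | G^[1] x = x} := by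
    intro y hy
    show G y = y
    rw [hG1]
    exact hy 1
  have hPerG : ∀ p ∈ Per G, ∀ t, Ψ t p = p := by
    rintro p ⟨k, hk, hkp⟩
    have hk0 : (0 : ℝ) < k := by exact_mod_cast hk
    refine hclosed p k hk0 ?_
    rw [← iter_flow hΨ hG1]
    exact hkp
  obtain ⟨h, hh⟩ := hconj G hG.2
  have hPerF : ∀ p ∈ Per F, F p = p := by
    rintro p ⟨k, hk, hkp⟩
    have hp : p ∈ Omega F := per_mem_omega hk hkp
    have h1 := conj_iter F.continuous h hh k ⟨p, hp⟩ ⟨p, hp⟩ hkp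
    have h2 : (h ⟨p, hp⟩ : N) ∈ Per G := ⟨k, hk, h1⟩
    have h3 : G (h ⟨p, hp⟩) = h ⟨p, hp⟩ := by
      rw [hG1]
      exact hPerG _ h2 1
    have h4 := conj_symm F.continuous h hh (h ⟨p, hp⟩) (h ⟨p, hp⟩) h3
    rw [h.symm_apply_apply] at h4
    exact h4
  refine ⟨(hfin G hG.1 1 le_rfl).subset hFix, hclosed, hPerF, fun hrec => ?_⟩
  have hRec : Rec G ⊆ Per G := by
    intro y hy
    obtain ⟨T, hT, hTy⟩ := hrec y (fun W hW => by
      obtain ⟨k, hk, hkW⟩ := hy W hW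
      refine ⟨k, by exact_mod_cast hk, ?_⟩
      rw [← iter_flow hΨ hG1]
      exact hkW)
    refine ⟨1, le_rfl, ?_⟩
    show G y = y
    rw [hG1]
    exact hclosed y T hT hTy 1
  have hGst : OmegaStable n N r G :=
    ⟨U₂, hU₂, hG.2, fun H hH => OmegaConj.iso F.continuous ⟨h, hh⟩ (hconj H hH)⟩
  have hcG : (Rec G \ Per G).Countable := by
    rw [sdiff_eq_empty.2 hRec]
    exact countable_empty
  have hΩG := (Gen.stable hr hGst hcG).1.1
  have hΩF : (Omega F).Finite := by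
    have h1 : Finite (Omega G) := hΩG
    have h2 : Finite (Omega F) := Finite.of_equiv _ h.symm.toEquiv
    exact h2
  have hRecF : (Rec F \ Per F).Countable := by
    refine hΩF.countable.mono ?_
    rintro x ⟨hx, -⟩ W hW hxW
    obtain ⟨k, hk, hkW⟩ := hx W (hW.mem_nhds hxW)
    exact ⟨k, hk, x, hxW, hkW⟩
  have hst := Gen.stable hr hF hRecF
  exact ⟨hst.1, fun p hp => ⟨hst.2 p hp, hPerF p (hst.2 p hp).1⟩⟩

end Run7.h491.HP
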