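import Pool.Agent.Run7.h619.HG.Cor
import Pool.Agent.Run7.h619.HG.Flow
import Pool.Agent.TH80.OMS.Main

/-!
# Omega-stable diffeomorphisms have no periodic homogeneous submanifolds
-/

set_option autoImplicit false
set_option linter.unusedSectionVars false

open scoped Manifold ContDiff Topology NNReal
open Filter Set Metric NormedSpace

universe u

namespace Run7.h491.HP

open Pool.Agent.H718R2.G Pool.Agent.W564.SC Pool.Agent.TH382.QC Pool.Agent.TH80.CLX
  Pool.Agent.TH382.HS Pool.Agent.TH80.OMS Run7.h619.HG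

section alg

variable {A : Type*} [NormedRing A] [NormedAlgebra ℝ A] [CompleteSpace A] [FiniteDimensional ℝ A]
  {G : Subgroup Aˣ} {g : Submodule ℝ A} {Γ : Subgroup Aˣ}

theorem one_conj (U C : A) : exp (-U) * (exp U * C * exp (-U)) * exp U = C := by
  calc exp (-U) * (exp U * C * exp (-U)) * exp U =
        (exp (-U) * exp U) * C * (exp (-U) * exp U) := by simp only [mul_assoc]
    _ = C := by rw [exp_neg_mul, one_mul, mul_one]

/-- If the conjugates by `exp U` of the exponentials of the elements of a centraliser lie in `Γ`, then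
`Γ` is everything. -/
theorem all_mem (hG : IsLie G g) (hd : DenseLF g Γ) {Z : A} (hZ : Z ∈ g) {U : A} (hU : U ∈ g)
    (h : ∀ C ∈ cen g Z, eu U * eu C * (eu U)⁻¹ ∈ Γ) : ∀ u ∈ G, u ∈ Γ := by
  have key : ∀ C ∈ cen g Z, C ∈ S0 g Γ := by
    intro C hC
    have h8 : exp U * C * exp (-U) ∈ S0 g Γ := by
      refine ⟨ad_mem hG (hG.exp_mem U hU) hC.1, fun t => ?_⟩
      have h9 := h (t • C) ((cen g Z).smul_mem t hC)
      rw [← eu_conj] at h9
      have e3 : ((eu U : Aˣ) : A) * t • C * (((eu U)⁻¹ : Aˣ) : A) = t • (exp U * C * exp (-U)) := by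
        rw [mul_smul_comm, smul_mul_assoc]
        rfl
      rwa [e3] at h9
    have h9 : Commute (exp U * C * exp (-U)) (exp U) := (S0_central hd h8 hU).exp_right
    have h10 : exp U * C * exp (-U) = C := by
      have h11 := one_conj U C
      rw [mul_assoc (exp (-U)), h9.eq, ← mul_assoc (exp (-U)), exp_neg_mul, one_mul] at h11
      exact h11
    rwa [h10] at h8
  have hZS : Z ∈ S0 g Γ := key Z ⟨hZ, Commute.refl Z⟩
  have hall : ∀ X ∈ g, X ∈ S0 g Γ := fun X hX => key X ⟨hX, S0_central hd hZS hX⟩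
  intro u hu
  obtain ⟨L, hL, rfl⟩ := hG.conn u hu
  apply Subgroup.list_prod_mem
  intro x hx
  obtain ⟨X, hX, rfl⟩ := List.mem_map.1 hx
  have := (hall X (hL X hX)).2 1
  rwa [one_smul] at this

end alg

section main

variable {A : Type*} [NormedRing A] [NormedAlgebra ℝ A] [CompleteSpace A] [FiniteDimensional ℝ A]
  {G : Subgroup Aˣ} {g : Submodule ℝ A} {n : ℕ} {N : Type u} [TopologicalSpace N] [T2Space N]
  [CompactSpace N] [ChartedSpace (V n) N] [IsManifold (𝓡 n) ∞ N] {r : ℕ∞}

/-- all maps in `U₁` have only finitely many points of each period -/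
def FinPer (U₁ : Set (DiffM n N r)) : Prop :=
  ∀ F ∈ U₁, ∀ m : ℕ, 1 ≤ m → {x | F^[m] x = x}.Finite

/-- If the return map is the translation by `h` and `F ∈ U₁` then the orbit is a point. -/
def Triv (U₁ : Set (DiffM n N r)) (act : G → N → N) (y : N) (m : ℕ) (k : G) (h : G) : Prop :=
  ∀ F ∈ U₁, (∀ a, F^[m] (act a y) = act (h * a * k) y) →
    (∀ i, 1 ≤ i → i < m → ∀ a b, F^[i] (act a y) ≠ act b y) → ∀ a, act a y = y

theorem triv_reg (hG : IsLie G g) {U₁ : Set (DiffM n N r)} (hU₁ : IsOpen[strongTop n N r] U₁)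
    (hfin : FinPer U₁) {O : Set N} {act : G → N → N} (hact : IsGAction G n N O act) {y : N}
    (hy : y ∈ O) (hlat : IsLatticePt G g act y) {m : ℕ} (hm : 1 ≤ m) {k : G} {l : ℕ} (hl : 1 ≤ l)
    (hk : act (k ^ l) y = y) (h : G) (hreg : Reg g (h : Aˣ)) : Triv U₁ act y m k h := by
  intro F hF hFm hdis
  obtain ⟨Z, hZ, hss, hab, hc⟩ := hreg
  obtain ⟨K, hK⟩ := coc_of hact hy hlat.compact
  have hd := dense_of hact hy hlat
  obtain ⟨j, e, f, hf, hfe⟩ := hom_fam hG (cen g Z) (fun U hU => hU.1) hab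
  obtain ⟨H, ε, hε, hH0, hfam, hH⟩ := pert hact hy hlat.compact F hdis hf
  -- the perturbations are in `U₁` for small parameters
  obtain ⟨δ, hδ, hδU⟩ : ∃ δ : ℝ, 0 < δ ∧ ∀ t, ‖t‖ < δ → H t ∈ U₁ := by
    by_contra hcon
    push Not at hcon
    choose s hs hsU using fun i : ℕ => hcon (1 / ((i : ℝ) + 1)) (by positivity)
    have hs0 : Tendsto s atTop (𝓝 0) :=
      squeeze_zero_norm (fun i => (hs i).le) tendsto_one_div_add_atTop_nhds_zero_nat
    have hcv : Cv (fun i => H (s i)) F := by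
      have h1 := Cv.fam Pool.Agent.W917.SC.comp hfam hs0
      rwa [hH0] at h1
    obtain ⟨i, hi⟩ := (hcv.mem hU₁ hF).exists
    exact hsU i hi
  obtain ⟨η, hη, hηs⟩ : ∃ η : ℝ, 0 < η ∧ ∀ c : cen g Z, ‖c‖ < η → ‖e.symm c‖ < min ε δ := by
    have h1 := e.symm.continuous.tendsto 0
    rw [map_zero] at h1
    have h2 := h1.norm
    rw [norm_zero] at h2
    obtain ⟨η, hη, h3⟩ := Metric.eventually_nhds_iff.1 (h2.eventually (gt_mem_nhds (lt_min hε hδ)))
    refine ⟨η, hη, fun c hc' => h3 ?_⟩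
    rwa [dist_zero_right]
  obtain ⟨s, hs, hsn, U, hU, -, q, hq, hγ⟩ := close_group hG hK hd hZ hss hab h.2 hc η hη
  have hst := hηs ⟨s, hs⟩ hsn
  obtain ⟨t, ht⟩ : ∃ t : V j, t = e.symm ⟨s, hs⟩ := ⟨_, rfl⟩
  rw [← ht] at hst
  have e1 : (f t : Aˣ) = eu s := by
    rw [hfe, ht, ContinuousLinearEquiv.apply_symm_apply]
  have h1 := hH t (lt_of_lt_of_le hst (min_le_left _ _))
  have hHU : H t ∈ U₁ := hδU t (lt_of_lt_of_le hst (min_le_right _ _))
  have h2 : ∀ a : G, (H t)^[m] (act a y) = act (h * f t * a * k) y := by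
    intro a
    rw [h1 a m hm le_rfl, hFm]
    congr 1
    group
  have h3 : ∀ (p : ℕ) (a : G), (H t)^[m * p] (act a y) = act ((h * f t) ^ p * a * k ^ p) y := by
    intro p
    induction p with
    | zero =>
      intro a
      rw [pow_zero, pow_zero, one_mul, mul_one]
      rfl
    | succ p ih =>
      intro a
      rw [Nat.mul_succ, Function.iterate_add_apply, h2, ih, pow_succ, pow_succ']
      congr 1
      group
  have h4 : ∀ (b : G) (w : N), w ∈ O → act b w = w → ∀ p : ℕ, act (b ^ p) w = w := by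
    intro b w hw hb p
    induction p with
    | zero => rw [pow_zero, hact.one w hw]
    | succ p ih => rw [pow_succ, hact.mul _ _ w hw, hb, ih]
  obtain ⟨κ, hκ⟩ : ∃ κ : G, κ = ⟨eu (-U), hG.exp_mem _ (g.neg_mem hU)⟩ := ⟨_, rfl⟩
  obtain ⟨w, hw⟩ : ∃ w : N, w = act κ y := ⟨_, rfl⟩
  have hwO : w ∈ O := by
    rw [hw]
    exact hact.maps _ _ hy
  -- `w` is periodic
  have h5 : act ((h * f t) ^ q) w = w := by
    obtain ⟨hmem, hγy⟩ := hγ
    have e2 : (⟨_, hmem⟩ : G) = κ⁻¹ * (h * f t) ^ q * κ := by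
      apply Subtype.ext
      rw [hκ]
      push_cast
      rw [e1, eu_neg, inv_inv]
    rw [e2, mul_assoc, hact.mul _ _ y hy] at hγy
    have h6 := congrArg (act κ) hγy
    rw [← hact.mul _ _ _ (hact.maps _ _ hy), mul_inv_cancel, hact.one _ (hact.maps _ _ hy)] at h6
    rw [hact.mul _ _ y hy, ← hw] at h6
    exact h6
  -- all points `exp(τ C) w` are periodic with the same period
  have h6 : ∀ C (hC : C ∈ cen g Z), act ⟨eu C, hG.exp_mem C hC.1⟩ w = w := by
    intro C hC
    let c : ℝ → G := fun τ => ⟨eu (τ • C), hG.exp_mem _ (g.smul_mem τ hC.1)⟩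
    have hcont : Continuous fun τ : ℝ => act (c τ) w := by
      have h7 : Continuous c := by
        refine Continuous.subtype_mk ?_ _
        exact eu_cont.comp (continuous_id.smul continuous_const)
      exact (act_cont hact hwO).comp h7
    have hcomm : ∀ τ, Commute (c τ) (h * f t) := by
      intro τ
      have hτ : τ • C ∈ cen g Z := (cen g Z).smul_mem τ hC
      have e3 : Commute ((h : Aˣ) : A) (exp (τ • C)) := (hc _ hτ).exp_right
      have e4 : Commute (exp s) (exp (τ • C)) := (hab s hs _ hτ).exp_left.exp_right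
      apply Commute.symm
      refine Commute.mul_left ?_ ?_
      · apply Subtype.ext
        apply Units.ext
        exact e3.eq
      · apply Subtype.ext
        show (f t : Aˣ) * eu (τ • C) = eu (τ • C) * (f t : Aˣ)
        rw [e1]
        apply Units.ext
        exact e4.eq
    have hmem : ∀ τ, act (c τ) w ∈ {x | (H t)^[m * (q * l)] x = x} := by
      intro τ
      show (H t)^[m * (q * l)] (act (c τ) w) = act (c τ) w
      have e5 : act (c τ) w = act (c τ * κ) y := by
        rw [hw, hact.mul _ _ y hy]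
      rw [e5, h3, hact.mul _ _ y hy]
      have e6 : act (k ^ (q * l)) y = y := by
        rw [mul_comm, pow_mul]
        exact h4 _ y hy hk _
      rw [e6, hact.mul _ _ y hy, hact.mul _ _ y hy, ← hw,
        ← hact.mul _ _ w hwO, ((hcomm τ).pow_right (q * l)).symm.eq, hact.mul _ _ w hwO, pow_mul]
      congr 1
      exact h4 _ w hwO h5 l
    have hql : 1 ≤ m * (q * l) := Nat.mul_pos hm (Nat.mul_pos hq hl)
    obtain ⟨x₀, -, hx₀⟩ := isPreconnected_univ.eqOn_const_of_mapsTo
      (T := {x | (H t)^[m * (q * l)] x = x}) (S := (univ : Set ℝ)) (f := fun τ => act (c τ) w)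
      (hfin (H t) hHU _ hql).isDiscrete hcont.continuousOn (fun τ _ => hmem τ) ⟨_, hmem 0⟩
    have h7 : act (c 1) w = x₀ := hx₀ (mem_univ 1)
    have h8 : act (c 0) w = x₀ := hx₀ (mem_univ 0)
    have e7 : c 0 = 1 := by
      apply Subtype.ext
      show eu ((0 : ℝ) • C) = 1
      rw [zero_smul, eu_zero]
    have e8 : c 1 = ⟨eu C, hG.exp_mem C hC.1⟩ := by
      apply Subtype.ext
      show eu ((1 : ℝ) • C) = eu C
      rw [one_smul]
    rw [e7, hact.one w hwO] at h8
    rw [← e8, h7, ← h8]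
  -- so the stabiliser is everything
  have h7 : ∀ C ∈ cen g Z, eu U * eu C * (eu U)⁻¹ ∈ stab O act y n hact hy := by
    intro C hC
    have hUG : eu U ∈ G := hG.exp_mem U hU
    have hCG : eu C ∈ G := hG.exp_mem C hC.1
    refine ⟨G.mul_mem (G.mul_mem hUG hCG) (G.inv_mem hUG), ?_⟩
    have e2 : (⟨eu U * eu C * (eu U)⁻¹, G.mul_mem (G.mul_mem hUG hCG) (G.inv_mem hUG)⟩ : G) =
        κ⁻¹ * ⟨eu C, hCG⟩ * κ := by
      apply Subtype.ext
      rw [hκ]
      push_cast
      rw [eu_neg, inv_inv]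
    rw [e2, hact.mul _ _ y hy, ← hw, hact.mul _ _ w hwO, h6 C hC, hw, ← hact.mul _ _ y hy,
      inv_mul_cancel, hact.one y hy]
  intro a
  obtain ⟨ha, ha'⟩ := all_mem hG hd hZ hU h7 (a : Aˣ) a.2
  exact ha'

theorem triv_all (hG : IsLie G g) (hC : HasCartan g) {U₁ : Set (DiffM n N r)}
    (hU₁ : IsOpen[strongTop n N r] U₁) (hfin : FinPer U₁) {O : Set N} {act : G → N → N}
    (hact : IsGAction G n N O act) {y : N} (hy : y ∈ O) (hlat : IsLatticePt G g act y) {m : ℕ}
    (hm : 1 ≤ m) {k : G} {l : ℕ} (hl : 1 ≤ l) (hk : act (k ^ l) y = y) (h : G) :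
    Triv U₁ act y m k h := by
  have key : ∀ u ∈ G, ∀ hu : u ∈ G, Triv U₁ act y m k ⟨u, hu⟩ := by
    refine induct hG hC (fun u => ∀ hu : u ∈ G, Triv U₁ act y m k ⟨u, hu⟩) ?_ ?_
    · intro u hu hreg _
      exact triv_reg hG hU₁ hfin hact hy hlat hm hl hk ⟨u, hu⟩ hreg
    · intro u hu W hW hfr _
      -- the one-parameter family
      let c : V 1 → G := fun t => ⟨eu ((t 0) • W), hG.exp_mem _ (g.smul_mem _ hW)⟩
      have hc : IsHomFam c := by
        constructor
        · show ContDiff ℝ ∞ fun s : V 1 => exp ((s 0) • W)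
          have h1 : ContDiff ℝ ∞ (exp : A → A) :=
            (contDiff_iff_contDiffAt.2 fun x => ((exp_analytic x).contDiffAt))
          have h2 : ContDiff ℝ ∞ fun s : V 1 => (s 0) • W := by
            have h3 : ContDiff ℝ ∞ fun s : V 1 => s 0 := by fun_prop
            exact h3.smul contDiff_const
          exact h1.comp h2
        · intro s t
          apply Subtype.ext
          show eu ((s + t) 0 • W) = eu (s 0 • W) * eu (t 0 • W)
          rw [PiLp.add_apply, add_smul, eu_add (((Commute.refl W).smul_left _).smul_right _)]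
      intro F hF hFm hdis
      obtain ⟨H, ε, hε, hH0, hfam, hH⟩ := pert hact hy hlat.compact F hdis hc
      have h1 : Tendsto (fun t : ℝ => (t • EuclideanSpace.single (0 : Fin 1) (1 : ℝ) : V 1)) (𝓝 0)
          (𝓝 0) := by
        have h2 : Continuous fun t : ℝ => (t • EuclideanSpace.single (0 : Fin 1) (1 : ℝ) : V 1) :=
          continuous_id.smul continuous_const
        have h3 := h2.tendsto 0
        rwa [zero_smul] at h3
      obtain ⟨s, hs, hPs⟩ := exists_seq_forall_of_frequently hfr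
      have h2 := h1.comp hs
      have hcv : Cv (fun i => H (s i • EuclideanSpace.single (0 : Fin 1) (1 : ℝ))) F := by
        have h1 := Cv.fam Pool.Agent.W917.SC.comp hfam h2
        rwa [hH0] at h1
      have hev : ∀ᶠ i in atTop, ‖(s i • EuclideanSpace.single (0 : Fin 1) (1 : ℝ) : V 1)‖ < ε := by
        have h1 := h2.norm
        rw [norm_zero] at h1
        exact h1.eventually (gt_mem_nhds hε)
      obtain ⟨i, hi, hiU⟩ := (hev.and (hcv.mem hU₁ hF)).exists
      have ht0 : (s i • EuclideanSpace.single (0 : Fin 1) (1 : ℝ) : V 1) 0 = s i := by simp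
      have e1 : (⟨u, hu⟩ : G) * c (s i • EuclideanSpace.single (0 : Fin 1) (1 : ℝ)) =
          ⟨u * eu (s i • W), G.mul_mem hu (hG.exp_mem _ (g.smul_mem (s i) hW))⟩ := by
        apply Subtype.ext
        show u * eu ((s i • EuclideanSpace.single (0 : Fin 1) (1 : ℝ) : V 1) 0 • W) =
          u * eu (s i • W)
        rw [ht0]
      refine hPs i (G.mul_mem hu (hG.exp_mem _ (g.smul_mem (s i) hW)))
        (H (s i • EuclideanSpace.single (0 : Fin 1) (1 : ℝ))) hiU ?_ ?_
      · intro a
        rw [← e1, hH _ hi a m hm le_rfl, hFm]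
        congr 1
        group
      · intro i' h1 h2 a b
        rw [hH _ hi a i' h1 h2.le]
        exact hdis i' h1 h2 _ _
  exact key h h.2 h.2

end main

end Run7.h491.HP
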