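import Pool.Agent.Run7.h491.HP.Piece
import Pool.Agent.Run7.h491.HP.Flow
import Pool.Agent.Run7.h491.HP.Defs
import Pool.Agent.Run7.h619.TC.Main

/-!
# Omega-stable diffeomorphisms and homogeneous dynamics: statements
-/

set_option autoImplicit false
set_option linter.unusedSectionVars false

open scoped Manifold ContDiff Topology NNReal
open Filter Set Metric NormedSpace

universe u v

namespace Run7.h491.HP

open Pool.Agent.H718R2.G Pool.Agent.W564.SC Pool.Agent.TH382.QC Pool.Agent.TH80.CLX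
  Pool.Agent.TH382.HS Pool.Agent.TH80.OMS Run7.h619.HG Run7.h619.TC


section

variable {n : ℕ} {N : Type u} [TopologicalSpace N] [T2Space N] [CompactSpace N]
  [ChartedSpace (V n) N] [IsManifold (𝓡 n) ∞ N] {r : ℕ∞} {U₁ : Set (DiffM n N r)}

theorem no_piece (hU₁ : IsOpen[strongTop n N r] U₁) (hfin : FinPer U₁) (F : DiffM n N r)
    (hF : F ∈ U₁) (y : N) : ¬ IsHomPiece n N F y := by
  rintro ⟨d, G, g, hG, hC, O, act, hact, hy, ⟨hlat, u, hu⟩, m, hm, ⟨h, k, l, hl, hk, hFm⟩, hdis⟩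
  exact hu (triv_all hG hC hU₁ hfin hact hy hlat hm hl hk h F hF hFm hdis u)

theorem no_ext (hU₁ : IsOpen[strongTop n N r] U₁) (hfin : FinPer U₁) (F : DiffM n N r)
    (hF : F ∈ U₁) (z : N) : ¬ IsHomExt n N r F z := by
  rintro ⟨d, G, g, hG, hC, ρ, a, F₀, hρ, hz, h, hc⟩
  have hcomp : S_COMP := Pool.Agent.W917.SC.comp
  obtain ⟨f, hf, hcv⟩ := Cv.exists_seq hcomp F₀ (fun f => Comm ρ f ∧ IsPer f z) hc
  have c1 := Cv.trans hcomp (Cv.trans hcomp hcv (Cv.const F₀.symm)) (Cv.const F)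
  have e : (F₀.trans F₀.symm).trans F = F := by
    ext y
    show F (F₀.symm (F₀ y)) = F y
    rw [F₀.symm_apply_apply]
  rw [e] at c1
  obtain ⟨m, hm⟩ := (c1.mem hU₁ hF).exists
  exact no_piece hU₁ hfin _ hm z ⟨d, G, g, hG, hC, skew_per (fun y => hρ.one y (mem_univ _))
    (fun u v y => hρ.mul u v y (mem_univ _)) hρ (skew_diff h (hf m).1) hz (hf m).2⟩

end

section tc

variable {A : Type*} [NormedRing A] [NormedAlgebra ℝ A] [CompleteSpace A]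
  {G : Subgroup Aˣ} {g : Submodule ℝ A} [FiniteDimensional ℝ A] {n : ℕ} {N : Type u}
  [TopologicalSpace N] [T2Space N]
  [CompactSpace N] [ChartedSpace (V n) N] [IsManifold (𝓡 n) ∞ N] {ρ : G → N → N}

/-- the abstract statement: near a map of `U₁` which is the product of `F₀` with the time-one map of a
member of a family of flows, no flow of the family has closed orbits through periodic points of `F₀` -/
theorem no_closed_fam {P : Type} [NormedAddCommGroup P] [NormedSpace ℝ P] [FiniteDimensional ℝ P]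
    {ψ : P → ℝ → N → N} {r : ℕ∞} {U₁ : Set (DiffM n N r)} (hU₁ : IsOpen[strongTop n N r] U₁)
    (hfin : FinPer U₁) (hψ : FlowFam P n N ψ) (F₀ F : DiffM n N r) (hF : F ∈ U₁)
    (hFψ : ∀ y, F y = ψ 0 1 (F₀ y)) (hc : ∀ p t y, F₀ (ψ p t y) = ψ p t (F₀ y)) :
    ∃ ε : ℝ, 0 < ε ∧ ∀ p : P, ‖p‖ < ε → ∀ (y : N) (T : ℝ), IsPer F₀ y → 0 < T → ψ p T y = y →
      ∀ t, ψ p t y = y := by
  have hfam := pfam hψ r F₀
  obtain ⟨ε, hε, hεU⟩ : ∃ ε : ℝ, 0 < ε ∧ ∀ s : P × ℝ, ‖s‖ < ε →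
      F₀.trans (dflow hψ r s.1 (1 + s.2)) ∈ U₁ := by
    by_contra hcon
    push Not at hcon
    choose s hs hsU using fun i : ℕ => hcon (1 / ((i : ℝ) + 1)) (by positivity)
    have hs0 : Tendsto s atTop (𝓝 0) :=
      squeeze_zero_norm (fun i => (hs i).le) tendsto_one_div_add_atTop_nhds_zero_nat
    have e : F₀.trans (dflow hψ r (0 : P × ℝ).1 (1 + (0 : P × ℝ).2)) = F := by
      ext y
      rw [hFψ]
      show ψ 0 (1 + 0) (F₀ y) = ψ 0 1 (F₀ y)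
      rw [add_zero]
    have hcv : Cv (fun i => F₀.trans (dflow hψ r (s i).1 (1 + (s i).2))) F := by
      have h1 := Cv.fam Pool.Agent.W917.SC.comp hfam hs0
      rwa [e] at h1
    obtain ⟨i, hi⟩ := (hcv.mem hU₁ hF).exists
    exact hsU i hi
  refine ⟨ε, hε, fun p hp y T hy hT hTy => ?_⟩
  have hp' : ‖((p, 0) : P × ℝ)‖ < ε := by
    rw [Prod.norm_def, norm_zero]
    exact max_lt hp hε
  have hGU := hεU (p, 0) hp'
  obtain ⟨H, hH⟩ : ∃ H : DiffM n N r, H = F₀.trans (dflow hψ r p (1 + 0)) := ⟨_, rfl⟩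
  have hGU' : H ∈ U₁ := by rw [hH]; exact hGU
  have hHa : ∀ x, H x = ψ p 1 (F₀ x) := by
    intro x
    rw [hH]
    show ψ p (1 + 0) (F₀ x) = _
    rw [add_zero]
  have hr : (r : WithTop ℕ∞) ≤ ∞ := by exact_mod_cast le_top
  have hfl : IsCrFlow n N r (ψ p) :=
    ⟨(hψ.flow p).smooth.of_le hr, hψ.zero p, hψ.add p⟩
  have hcH : ∀ t x, H (ψ p t x) = ψ p t (H x) := by
    intro t x
    rw [hHa, hHa, hc, ← hψ.add, ← hψ.add, add_comm]
  obtain ⟨δ, hδ, h⟩ := drift hU₁ hfin H hGU' hfl hcH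
  obtain ⟨q, hq, hqy⟩ := hy
  have hq0 : (0 : ℝ) < q := by exact_mod_cast hq
  obtain ⟨b, hb⟩ := exists_nat_gt (T / (δ * q))
  have hδq : 0 < δ * q := by positivity
  have hb0 : (0 : ℝ) < b := lt_of_le_of_lt (by positivity) hb
  have hb1 : 1 ≤ b := by exact_mod_cast hb0
  rw [div_lt_iff₀ hδq] at hb
  have hper : ∀ j : ℕ, ψ p (j * T) y = y := by
    intro j
    induction j with
    | zero => rw [Nat.cast_zero, zero_mul, hψ.zero]
    | succ j ih =>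
      have e : ((j + 1 : ℕ) : ℝ) * T = T + j * T := by push_cast; ring
      rw [e, hψ.add, ih, hTy]
  have hiter : ∀ i : ℕ, H^[i] y = ψ p i (F₀^[i] y) := by
    intro i
    induction i with
    | zero => rw [Nat.cast_zero, hψ.zero]; rfl
    | succ i ih =>
      rw [Function.iterate_succ_apply', ih, hHa, hc, ← hψ.add, Function.iterate_succ_apply']
      congr 1
      push_cast
      ring
  have hF₀b : F₀^[q * b] y = y := by
    rw [Function.iterate_mul]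
    exact Function.iterate_fixed hqy b
  obtain ⟨j, hj⟩ : ∃ j : ℕ, j = ⌊((q * b : ℕ) : ℝ) / T⌋₊ := ⟨_, rfl⟩
  have hj1 : (j : ℝ) ≤ ((q * b : ℕ) : ℝ) / T := by
    rw [hj]
    exact Nat.floor_le (by positivity)
  have hj2 : ((q * b : ℕ) : ℝ) / T < j + 1 := by
    rw [hj]
    exact Nat.lt_floor_add_one _
  rw [le_div_iff₀ hT] at hj1
  rw [div_lt_iff₀ hT] at hj2
  refine h (q * b) (Nat.mul_pos hq hb1) (((q * b : ℕ) : ℝ) - j * T) ?_ y ?_
  · rw [abs_of_nonneg (by linarith)]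
    push_cast at hj2 ⊢
    nlinarith
  · rw [hiter, hF₀b]
    have e : ((q * b : ℕ) : ℝ) = (((q * b : ℕ) : ℝ) - j * T) + j * T := by ring
    conv_lhs => rw [e]
    rw [hψ.add, hper]

theorem no_tc {r : ℕ∞} {U₁ : Set (DiffM n N r)} (hU₁ : IsOpen[strongTop n N r] U₁)
    (hfin : FinPer U₁) (hG : IsLie G g) (hC : HasCartan g)
    (hP : IsGAction G n N univ ρ) (F₀ F : DiffM n N r) (hFU : F ∈ U₁)
    (hF₀ : ∀ u y, F₀ (ρ u y) = ρ u (F₀ y)) (W : A) (hW : W ∈ g) (β : N → ℝ)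
    (hβ : ContMDiff (𝓡 n) 𝓘(ℝ, ℝ) ∞ β) (hβ0 : ∀ q, 0 < β q) (hβF : ∀ q, β (F₀ q) = β q) (τ : N → ℝ)
    (hτ : ∀ q, ∫ s in (0 : ℝ)..τ q, β (ρ (onePar hG W hW s) q) = 1)
    (hF : ∀ y, F y = ρ (onePar hG W hW (τ (F₀ y))) (F₀ y)) (z : N)
    (hz : IsPer F₀ z) (hlat : IsLatticePt G g ρ z)
    (hne : ∃ u, ρ u z ≠ z) : False := by
  obtain ⟨e⟩ : Nonempty (V (Module.finrank ℝ g) ≃L[ℝ] g) :=
    FiniteDimensional.nonempty_continuousLinearEquiv_of_finrank_eq (by simp)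
  obtain ⟨j, hj⟩ : ∃ j, j = Module.finrank ℝ g := ⟨_, rfl⟩
  rw [← hj] at e
  have hψ := hflow_fam hG hP e W hW
  obtain ⟨ψ, hψd⟩ : ∃ ψ, ψ = hflow hG ρ e W hW := ⟨_, rfl⟩
  rw [← hψd] at hψ
  have hFψ : ∀ p t y, F₀ (ψ p t y) = ψ p t (F₀ y) := by
    intro p t y
    rw [hψd]
    exact hF₀ _ _
  -- the time changes
  have hxi : ∀ p t y, xi ψ β p t (F₀ y) = xi ψ β p t y := by
    intro p t y
    unfold xi Phi
    simp only [← hFψ, hβF]
  have hψ' := change hψ hβ hβ0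
  have hτ' : ∀ q, τ q = xi ψ β 0 1 q := by
    intro q
    apply xi_unique hψ hβ hβ0
    have h1 : ∀ s : ℝ, ψ 0 s q = ρ (onePar hG W hW s) q := by
      intro s
      rw [hψd]
      unfold hflow
      congr 1
      apply Subtype.ext
      show eu (s • (W + (e 0 : A))) = eu (s • W)
      rw [map_zero, Submodule.coe_zero, add_zero]
    unfold Phi
    simp only [h1]
    exact hτ q
  obtain ⟨ε, hε, hno⟩ := no_closed_fam hU₁ hfin hψ' F₀ F hFU (by
    intro y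
    rw [hF]
    show _ = ψ 0 (xi ψ β 0 1 (F₀ y)) (F₀ y)
    rw [← hτ', hψd]
    unfold hflow
    congr 1
    apply Subtype.ext
    show eu (τ (F₀ y) • W) = eu (τ (F₀ y) • (W + (e 0 : A)))
    rw [map_zero, Submodule.coe_zero, add_zero]) (by
    intro p t y
    show F₀ (ψ p (xi ψ β p t y) y) = ψ p (xi ψ β p t (F₀ y)) (F₀ y)
    rw [hFψ, hxi])
  obtain ⟨K, hK⟩ := coc_of hP (mem_univ z) hlat.compact
  have hd := dense_of hP (mem_univ z) hlat
  obtain ⟨Γ, hΓ⟩ : ∃ Γ, Γ = stab univ ρ z n hP (mem_univ z) := ⟨_, rfl⟩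
  have hΓm : ∀ u : G, (u : Aˣ) ∈ Γ ↔ ρ u z = z := by
    intro u
    rw [hΓ]
    exact ⟨fun h => h.2, fun h => ⟨u.2, h⟩⟩
  have hS0 := S0_closed hG hP z
  rw [← hΓ] at hK hd hS0
  have hneΓ : ∃ u ∈ G, u ∉ Γ := by
    obtain ⟨u, hu⟩ := hne
    exact ⟨u, u.2, fun h => hu ((hΓm u).1 h)⟩
  obtain ⟨δ₂, hδ₂, hδ₂e⟩ : ∃ δ : ℝ, 0 < δ ∧ ∀ X : g, ‖X‖ < δ → ‖e.symm X‖ < ε := by
    have h1 : Tendsto (fun X : g => ‖e.symm X‖) (𝓝 0) (𝓝 ‖e.symm 0‖) :=
      (e.symm.continuous.norm).tendsto 0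
    rw [map_zero, norm_zero] at h1
    obtain ⟨δ, hδ, hδ2⟩ := Metric.eventually_nhds_iff.1 (h1.eventually (gt_mem_nhds hε))
    exact ⟨δ, hδ, fun X hX => hδ2 (by rwa [dist_zero_right])⟩
  obtain ⟨Y, hY, hYW, X, hX, hXn, T, hT, hTΓ, s, hsΓ⟩ := closed_orbits hG hC hK hd hS0 hneΓ hW
    δ₂ hδ₂
  obtain ⟨p, hp⟩ : ∃ p : V j, p = e.symm ⟨Y - W, g.sub_mem hY hW⟩ := ⟨_, rfl⟩
  have hWp : W + (e p : A) = Y := by
    rw [hp, e.apply_symm_apply]
    show W + (Y - W) = Y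
    abel
  have hpn : ‖p‖ < ε := by
    rw [hp]
    apply hδ₂e
    show ‖Y - W‖ < δ₂
    exact hYW
  obtain ⟨k, hk⟩ : ∃ k : G, k = expG hG (-X) (g.neg_mem hX) := ⟨_, rfl⟩
  have hkA : (k : Aˣ) = (eu X)⁻¹ := by
    rw [hk, ← eu_neg]
    rfl
  have hςk : ∀ t, ψ p t (ρ k z) = ρ k z ↔ eu X * eu (t • Y) * (eu X)⁻¹ ∈ Γ := by
    intro t
    have h1 : (k⁻¹ * expG hG (t • Y) (g.smul_mem t hY) * k : G) =
        (⟨eu X * eu (t • Y) * (eu X)⁻¹, G.mul_mem (G.mul_mem (hG.exp_mem X hX)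
          (hG.exp_mem _ (g.smul_mem t hY))) (G.inv_mem (hG.exp_mem X hX))⟩ : G) := by
      apply Subtype.ext
      show (k : Aˣ)⁻¹ * eu (t • Y) * (k : Aˣ) = eu X * eu (t • Y) * (eu X)⁻¹
      rw [hkA, inv_inv]
    have h2 : ψ p t (ρ k z) = ρ (expG hG (t • Y) (g.smul_mem t hY) * k) z := by
      rw [hP.mul _ _ _ (mem_univ _), hψd]
      unfold hflow
      congr 1
      apply Subtype.ext
      show eu (t • (W + (e p : A))) = eu (t • Y)
      rw [hWp]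
    have h3 := hΓm (k⁻¹ * expG hG (t • Y) (g.smul_mem t hY) * k)
    have h4 : ((k⁻¹ * expG hG (t • Y) (g.smul_mem t hY) * k : G) : Aˣ) =
        eu X * eu (t • Y) * (eu X)⁻¹ := by rw [h1]
    rw [h4] at h3
    rw [h3, h2, mul_assoc,
      hP.mul k⁻¹ (expG hG (t • Y) (g.smul_mem t hY) * k) _ (mem_univ _)]
    constructor
    · intro h
      rw [h, ← hP.mul _ _ _ (mem_univ _), inv_mul_cancel, hP.one _ (mem_univ _)]
    · intro h
      have h5 := congrArg (ρ k) h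
      rw [← hP.mul _ _ _ (mem_univ _), mul_inv_cancel, hP.one _ (mem_univ _)] at h5
      exact h5
  -- the closed orbit of the flow `ψ p` through `ρ k z`
  have hper : IsPer F₀ (ρ k z) := by
    obtain ⟨q, hq, hqz⟩ := hz
    refine ⟨q, hq, ?_⟩
    have h1 : ∀ (i : ℕ) (x : N), F₀^[i] (ρ k x) = ρ k (F₀^[i] x) := by
      intro i
      induction i with
      | zero => exact fun x => rfl
      | succ i ih =>
        intro x
        rw [Function.iterate_succ_apply, Function.iterate_succ_apply, hF₀, ih]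
    show F₀^[q] (ρ k z) = ρ k z
    rw [h1, hqz]
  have hTy : ψ p T (ρ k z) = ρ k z := (hςk T).2 hTΓ
  -- in terms of the changed flow
  have hch : ∀ t, ψ p (xi ψ β p t (ρ k z)) (ρ k z) = ρ k z := by
    intro t
    refine hno p hpn (ρ k z) (Phi ψ β p T (ρ k z)) hper ?_ ?_ t
    · have h1 := phi_lt hψ hβ hβ0 p (ρ k z) hT
      simp only [phi_zero] at h1
      exact h1
    · show ψ p (xi ψ β p (Phi ψ β p T (ρ k z)) (ρ k z)) (ρ k z) = _
      have h1 : xi ψ β p (Phi ψ β p T (ρ k z)) (ρ k z) = T := (xi_unique hψ hβ hβ0 rfl).symm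
      rw [h1]
      exact hTy
  have hs2 := hch (Phi ψ β p s (ρ k z))
  have h1 : xi ψ β p (Phi ψ β p s (ρ k z)) (ρ k z) = s := (xi_unique hψ hβ hβ0 rfl).symm
  rw [h1] at hs2
  apply hsΓ
  rw [← hςk, hs2]

end tc

section

variable {n : ℕ} {N : Type u} [TopologicalSpace N] [T2Space N] [CompactSpace N]
  [ChartedSpace (V n) N] [IsManifold (𝓡 n) ∞ N] {r : ℕ∞} {U₁ : Set (DiffM n N r)}

theorem no_tcpiece (hU₁ : IsOpen[strongTop n N r] U₁) (hfin : FinPer U₁) (F : DiffM n N r)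
    (hF : F ∈ U₁) (z : N) : ¬ IsTCPiece n N r F z := by
  rintro ⟨d, G, g, hG, hC, ρ, F₀, hP, ⟨hlat, hne⟩, hcm, hz, W, hW, τ, ⟨β, hβ, hβ0, hβF, hτ⟩, hFe⟩
  exact no_tc hU₁ hfin hG hC hP F₀ F hF hcm W hW β hβ hβ0 hβF τ hτ hFe z hz hlat hne

end

end Run7.h491.HP
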